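import Pool.Agent.K6.H27.ZS.Sym

/-! The first Chern class of a bundle of rank two and its Plücker vector exist (helper27; the proof
follows helper64's `c1P_of_line`). -/

set_option autoImplicit false
set_option linter.all false

open MvPolynomial H960VB Matrix
open Pool.Agent.K6.H64.VB

namespace Pool.Agent.K6.H27.ZS

variable {n : ℕ}

theorem exists_c1P (hn : 1 ≤ n) (E : Bundle2 n) : ∃ (c₁ : ℤ) (P : Fin E.a → Fin E.a → S n),
    C1P E c₁ P := by
  obtain ⟨W⟩ := H938TB.exists_wedge hn (Pool.Agent.W615.triv E)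
  have ker : ∀ {m : ℤ} {G : Vec E}, E.IsSection m G → H938TB.Ker E G := fun h =>
    (Pool.Agent.W615.sec_of_isSection h).ker
  obtain ⟨m, m', G, G', i₀, j₀, hG, hG', hw⟩ := exists_local hn E (fun _ => 1) (by
    intro h
    have := congrFun h 0
    simp at this)
  have hwd : W.wd G G' ≠ 0 := by
    intro h0
    apply hw
    have : wedge G G' i₀ j₀ = W.wd G G' * W.P i₀ j₀ := W.eq G G' (ker hG) (ker hG') i₀ j₀
    rw [this, h0, zero_mul, map_zero]
  have hh := Pool.Agent.W615.wd_homZ W (Pool.Agent.W615.sec_of_isSection hG)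
    (Pool.Agent.W615.sec_of_isSection hG')
  obtain ⟨d, hd, hdh⟩ := hh.resolve_left hwd
  refine ⟨W.κ.1, W.P, fun i j => ?_, W.P_ne, fun m m' G G' h h' =>
    ⟨W.wd G G', fun i j => W.eq G G' (ker h) (ker h') i j⟩⟩
  refine homZ_of_mul hwd hdh ?_
  have e : wedge G G' i j = W.wd G G' * W.P i j := W.eq G G' (ker hG) (ker hG') i j
  rw [mul_comm, ← e]
  have := hm_wedge hG hG' i j
  rwa [show E.β i + E.β j - W.κ.1 + (d : ℤ) = E.β i + E.β j + m + m' by
    rw [hd]; ring]

end Pool.Agent.K6.H27.ZS
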