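import Pool.Agent.K6.H27.ZS.Sym

/-! Infinitesimal symmetries of the zero scheme of a section of a bundle of rank two: the dimension
count (helper27). Uses the modules of helper64. -/

set_option autoImplicit false
set_option linter.all false

open MvPolynomial H960VB Matrix
open Pool.Agent.K6.H64.VB

namespace Pool.Agent.K6.H27.ZS

variable {n : ℕ}

/-- the derivative of `f` along the linear vector field `x ↦ A x` -/
noncomputable def along (A : Matrix (Fin (n + 1)) (Fin (n + 1)) ℂ) (f : S n) : S n :=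
  ∑ s, pderiv s f * (∑ t, C (A s t) * X t)

theorem along_add (A B : Matrix (Fin (n + 1)) (Fin (n + 1)) ℂ) (f : S n) :
    along (A + B) f = along A f + along B f := by
  unfold along
  rw [← Finset.sum_add_distrib]
  refine Finset.sum_congr rfl fun s _ => ?_
  rw [← mul_add, ← Finset.sum_add_distrib]
  congr 1
  refine Finset.sum_congr rfl fun t _ => ?_
  rw [Matrix.add_apply, C_add, add_mul]

theorem along_zero (f : S n) : along (0 : Matrix (Fin (n + 1)) (Fin (n + 1)) ℂ) f = 0 := by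
  unfold along
  refine Finset.sum_eq_zero fun s _ => ?_
  rw [Finset.sum_eq_zero, mul_zero]
  intro t _
  rw [Matrix.zero_apply, C_0, zero_mul]

theorem along_smul (c : ℂ) (A : Matrix (Fin (n + 1)) (Fin (n + 1)) ℂ) (f : S n) :
    along (c • A) f = C c * along A f := by
  unfold along
  rw [Finset.mul_sum]
  refine Finset.sum_congr rfl fun s _ => ?_
  rw [Finset.mul_sum, Finset.mul_sum, Finset.mul_sum]
  refine Finset.sum_congr rfl fun t _ => ?_
  rw [Matrix.smul_apply, smul_eq_mul, C_mul]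
  ring

/-- the linear vector fields which preserve the scheme of the ideal `I` -/
noncomputable def sym (I : Ideal (S n)) : Submodule ℂ (Matrix (Fin (n + 1)) (Fin (n + 1)) ℂ) where
  carrier := {A | ∀ f ∈ I, ∀ l, ∃ M : ℕ, X l ^ M * along A f ∈ I}
  zero_mem' := fun f _ l => ⟨0, by rw [along_zero, mul_zero]; exact Ideal.zero_mem _⟩
  add_mem' := by
    intro A B hA hB f hf l
    obtain ⟨M, hM⟩ := hA f hf l
    obtain ⟨M', hM'⟩ := hB f hf l
    refine ⟨M + M', ?_⟩
    have e : X l ^ (M + M') * along (A + B) f =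
        X l ^ M' * (X l ^ M * along A f) + X l ^ M * (X l ^ M' * along B f) := by
      rw [along_add, pow_add]; ring
    rw [e]
    exact add_mem (Ideal.mul_mem_left _ _ hM) (Ideal.mul_mem_left _ _ hM')
  smul_mem' := by
    intro c A hA f hf l
    obtain ⟨M, hM⟩ := hA f hf l
    refine ⟨M, ?_⟩
    have e : X l ^ M * along (c • A) f = C c * (X l ^ M * along A f) := by
      rw [along_smul]; ring
    rw [e]
    exact Ideal.mul_mem_left _ _ hM

/-- the coordinates of a matrix -/
noncomputable def Lm (n : ℕ) :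
    (Fin (n + 1) × Fin (n + 1) → ℂ) ≃ₗ[ℂ] Matrix (Fin (n + 1)) (Fin (n + 1)) ℂ where
  toFun := fun u => Matrix.of fun s t => u (s, t)
  invFun := fun A a => A a.1 a.2
  map_add' := fun u u' => rfl
  map_smul' := fun a u => rfl
  left_inv := fun u => rfl
  right_inv := fun A => rfl

theorem along_Lm (u : Fin (n + 1) × Fin (n + 1) → ℂ) (p : S n) :
    ∑ a : Fin (n + 1) × Fin (n + 1), (C (u a) : S n) *
      ((X a.2 : S n) • pderiv a.1 : Derivation ℂ (S n) (S n)) p = along (Lm n u) p := by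
  unfold along
  rw [Fintype.sum_prod_type]
  refine Finset.sum_congr rfl fun s _ => ?_
  rw [Finset.mul_sum]
  refine Finset.sum_congr rfl fun t _ => ?_
  show C (u (s, t)) * (X t * pderiv s p) = pderiv s p * (C (u (s, t)) * X t)
  ring

/-- the dimension count -/
theorem main (hn : 4 ≤ n) {E : Bundle2 n} {D₀ : Matrix (Fin (n + 1)) (Fin (n + 1)) ℂ}
    (hS' : ∀ N, Pool.Agent.W615.LiftsTo E N → ∃ a b : ℂ, N = a • D₀ + b • 1)
    {c₁ : ℤ} {P : Fin E.a → Fin E.a → S n} (hP : C1P E c₁ P) {m : ℤ} {G₀ : Vec E}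
    (hG₀ : E.IsSection m G₀) (hc : Cod2 E G₀) {a : ℕ} (ha : H1LeI (iX G₀) 0 a) :
    Module.finrank ℂ (sym (iX G₀)) ≤
      Module.finrank ℂ (sym (iX G₀) ⊓ Submodule.span ℂ {D₀, 1} : Submodule ℂ _) + a := by
  classical
  obtain ⟨F⟩ := exists_frm (by omega) E
  let K := FractionRing (S n)
  obtain ⟨ω, hS, hD⟩ := sx_of (K := K) (by omega) F hP hG₀ hc
  have hGM := mem_Mp_of_section hG₀
  have hG := F.geo (K := K) (by omega)
  choose θ hθ using fun a : Fin (n + 1) × Fin (n + 1) =>
    exists_ext K ((X a.2 : S n) • pderiv a.1 : Derivation ℂ (S n) (S n)) (homZ_X_pderiv a.1 a.2)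
  obtain ⟨B, Y, hYe, hBh, hBl, hY, hYl⟩ := fam' hθ (by omega) hG
  let T : Submodule ℂ (Fin (n + 1) × Fin (n + 1) → ℂ) := (sym (iX G₀)).comap (Lm n).toLinearMap
  have hT1 : T ≤ W1s ω (F.ρ K G₀) (m - F.m) (2 * F.m + c₁) hY := by
    intro u hu
    let σ := F.ρ K G₀
    let θu : K → K := fun q => ∑ a, algebraMap (S n) K (MvPolynomial.C (u a)) * θ a q
    let Bu : Fin (n + 1) → M2 K := fun i => ∑ a, (MvPolynomial.C (u a) : S n) • B a i
    have hEu := Ext.comb hθ u
    have hBuh : ∀ i, HmM n 0 (Bu i) := fun i => HmM.sum _ fun a => C_smul_hm (u a) (hBh a i)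
    have hBu : ∀ i, ∀ v ∈ F.MM K, θv θu v + (Bu i).mulVec v ∈ locI {i} (F.MM K) := by
      intro i v hv
      have e1 : θv θu v + (Bu i).mulVec v =
          ∑ a, (MvPolynomial.C (u a) : S n) • (θv (θ a) v + (B a i).mulVec v) := by
        simp only [smul_add, Finset.sum_add_distrib, ← smul_mulVec]
        show θv θu v + (∑ a, (MvPolynomial.C (u a) : S n) • B a i).mulVec v = _
        rw [Matrix.sum_mulVec]
        congr 1
        funext s
        rw [Finset.sum_apply]
        exact Finset.sum_congr rfl fun a _ => (Algebra.smul_def _ _).symm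
      rw [e1]
      exact Submodule.sum_mem _ fun a _ => Submodule.smul_mem _ _ (hBl a i v hv)
    refine step1' hS hY (t := fun i => Dv ω σ (θv θu σ + (Bu i).mulVec σ)) (fun i j => ?_)
      (fun i => ?_) (fun i => ?_)
    · have e1 : Y u i j = Bu j - Bu i := by
        rw [hYe, ← Finset.sum_sub_distrib]
        exact Finset.sum_congr rfl fun a _ => smul_sub _ _ _
      show Dv ω σ ((Y u i j).mulVec σ) =
        Dv ω σ (θv θu σ + (Bu j).mulVec σ) - Dv ω σ (θv θu σ + (Bu i).mulVec σ)
      rw [e1, sub_mulVec, Dv_sub, Dv_add, Dv_add]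
      ring
    · have h1 : HmV n (m - F.m) (θv θu σ) := by
        intro s
        have := hEu.hm _ _ (hS.hσ s)
        rwa [add_zero] at this
      have h2 : HmV n (m - F.m) ((Bu i).mulVec σ) := by
        have := hmV_mulVec (hBuh i) hS.hσ
        rwa [zero_add] at this
      have h3 := hm_Dv hS.hσ (hgrV.add h1 h2) hS.hω
      rwa [show (m - F.m) + (m - F.m) + (2 * F.m + c₁) =
        0 + (2 * (m - F.m) + (2 * F.m + c₁)) by ring] at h3
    · refine locI_trans (iX_le_J2 F hS hc hGM hD i)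
        (value_mem F hS hc hGM hEu (hBu i) fun f hf => ?_)
      obtain ⟨M, hM⟩ := hu f hf i
      refine ⟨M, ?_⟩
      have e2 := along_Lm u f
      exact e2 ▸ hM
  have h2 := hS.step2 (by omega) hY (ha.toJ (J1_le_iX F hP hGM hD) (iX_le_J1 F hc hGM hD))
  have h3 := Submodule.finrank_sup_add_finrank_inf_eq T (W2s hY)
  have h4 : Module.finrank ℂ (T ⊔ W2s hY : Submodule ℂ _) ≤
      Module.finrank ℂ (W1s ω (F.ρ K G₀) (m - F.m) (2 * F.m + c₁) hY) :=
    Submodule.finrank_mono (sup_le hT1 (W2_le_W1 hY))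
  have hlift : ∀ u ∈ W2s hY, Pool.Agent.W615.LiftsTo E (Lm n u) := by
    intro u hu
    obtain ⟨θ', D, hθ', hD, hDM⟩ := hYl u hu
    obtain ⟨T, h1, h2, h3⟩ := hθ'.sections F hD hDM
    refine liftsTo_of (T := T) (fun m G hG => by simpa using h1 m G hG) h2 fun p G hG => ?_
    rw [h3 p G hG]
    congr 2
    exact along_Lm u p
  have h5 : (T ⊓ W2s hY).map (Lm n).toLinearMap ≤ sym (iX G₀) ⊓ Submodule.span ℂ {D₀, 1} := by
    rintro _ ⟨u, ⟨hu, hu'⟩, rfl⟩
    refine ⟨hu, ?_⟩
    obtain ⟨x, y, hxy⟩ := hS' _ (hlift u hu')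
    show Lm n u ∈ Submodule.span ℂ {D₀, 1}
    rw [hxy]
    exact Submodule.add_mem _ (Submodule.smul_mem _ _ (Submodule.subset_span (by simp)))
      (Submodule.smul_mem _ _ (Submodule.subset_span (by simp)))
  have h6 : Module.finrank ℂ ((T ⊓ W2s hY).map (Lm n).toLinearMap) =
      Module.finrank ℂ (T ⊓ W2s hY : Submodule ℂ _) := LinearEquiv.finrank_map_eq (Lm n) _
  have h7 := Submodule.finrank_mono h5
  have h8 : Module.finrank ℂ (sym (iX G₀)) = Module.finrank ℂ T := by
    have e1 : T.map (Lm n).toLinearMap = sym (iX G₀) :=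
      Submodule.map_comap_eq_of_surjective (Lm n).surjective _
    rw [← e1]
    exact LinearEquiv.finrank_map_eq (Lm n) _
  omega

end Pool.Agent.K6.H27.ZS
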