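import Pool.Agent.K6.H64.VC.SecMain

/-! Infinitesimal symmetries of the zero scheme of a section of a bundle of rank two (helper27). Uses
the modules of helper64. -/

set_option autoImplicit false
set_option linter.all false

open MvPolynomial H960VB Matrix
open Pool.Agent.K6.H64.VB

namespace Pool.Agent.K6.H27.ZS

variable {n : ℕ} {K : Type} [Field K] [Algebra (S n) K] [IsFractionRing (S n) K]

/-- the Nullstellensatz for an open set -/
theorem pow_mem_of_open {𝔞 : Ideal (S n)} {f : S n} (h : ∀ x : Fin (n + 1) → ℂ, eval x f ≠ 0 →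
    ∃ g ∈ 𝔞, eval x g ≠ 0) : ∃ N : ℕ, f ^ N ∈ 𝔞 := by
  have h1 : f ∈ 𝔞.radical := by
    rw [← vanishingIdeal_zeroLocus_eq_radical (K := ℂ), mem_vanishingIdeal_iff]
    intro x hx
    by_contra hne
    obtain ⟨g, hg, hgx⟩ := h x (by simpa using hne)
    exact hgx (by simpa using hx g hg)
  exact h1

theorem xp_single (l : Fin (n + 1)) : xp (n := n) {l} = X l := by
  unfold xp; rw [Finset.prod_singleton]

/-- from local to global on the open set `x l ≠ 0` -/
theorem loc_of_open {V : Type*} [AddCommGroup V] [Module (S n) V] {J : Submodule (S n) V} {q : V}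
    {l : Fin (n + 1)} (h : ∀ x : Fin (n + 1) → ℂ, x l ≠ 0 → ∃ g : S n, eval x g ≠ 0 ∧ g • q ∈ J) :
    q ∈ locI {l} J := by
  let 𝔟 : Ideal (S n) := {
    carrier := {f | f • q ∈ J}
    zero_mem' := by
      show (0 : S n) • q ∈ J
      rw [zero_smul]; exact Submodule.zero_mem _
    add_mem' := by
      intro a b ha hb
      show (a + b) • q ∈ J
      rw [add_smul]; exact Submodule.add_mem _ ha hb
    smul_mem' := by
      intro r a ha
      show (r • a) • q ∈ J
      rw [smul_eq_mul, mul_smul]; exact Submodule.smul_mem _ _ ha }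
  refine pow_mem_of_open (𝔞 := 𝔟) (f := xp {l}) (fun x hx => ?_)
  rw [xp_single, eval_X] at hx
  obtain ⟨g, hg, hgq⟩ := h x hx
  exact ⟨g, hgq, hg⟩

theorem locI_trans {V : Type*} [AddCommGroup V] [Module (S n) V] {I : Finset (Fin (n + 1))}
    {W W' : Submodule (S n) V} (h : W ≤ locI I W') {v : V} (hv : v ∈ locI I W) :
    v ∈ locI I W' := by
  obtain ⟨N, hN⟩ := hv
  obtain ⟨M, hM⟩ := h hN
  exact ⟨M + N, by rw [pow_add, mul_smul]; exact hM⟩

/-- the Atiyah class with its local lifts -/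
theorem fam' {ι : Type} [Fintype ι] {r : ℤ} {N : ι → S n → S n} {θ : ι → K → K}
    (h : ∀ a, Ext r (N a) (θ a)) (hn : 2 ≤ n) {M : Submodule (S n) (Fin 2 → K)} (hG : Geo M) :
    ∃ (B : ι → Fin (n + 1) → M2 K) (Y : (ι → ℂ) → Fin (n + 1) → Fin (n + 1) → M2 K),
      (∀ u i j, Y u i j = ∑ a, (MvPolynomial.C (u a) : S n) • (B a j - B a i)) ∧
      (∀ a i, HmM n r (B a i)) ∧
      (∀ a i, ∀ v ∈ M, θv (θ a) v + (B a i).mulVec v ∈ locI {i} M) ∧ Fam M r Y ∧
      ∀ u, Cob (A0 M) (Y u) → ∃ (θ' : K → K) (D : M2 K),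
        Ext r (fun p => ∑ a, (MvPolynomial.C (u a) : S n) * N a p) θ' ∧ HmM n r D ∧
        ∀ v ∈ M, θv θ' v + D.mulVec v ∈ M := by
  choose B hBh hBd hBl using fun a => (h a).data hn hG
  refine ⟨B, fun u i j => ∑ a, (MvPolynomial.C (u a) : S n) • (B a j - B a i),
    fun _ _ _ => rfl, hBh, hBl,
    ⟨fun u u' i j => ?_, fun c u i j => ?_, fun u => ⟨fun i j => ?_, fun i j k => ?_⟩,
      fun u i j => ?_⟩, fun u hu => ?_⟩
  · show ∑ a, (MvPolynomial.C (u a + u' a) : S n) • (B a j - B a i) = _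
    rw [← Finset.sum_add_distrib]
    exact Finset.sum_congr rfl fun a _ => by rw [MvPolynomial.C_add, add_smul]
  · show ∑ a, (MvPolynomial.C (c * u a) : S n) • (B a j - B a i) = _
    rw [Finset.smul_sum]
    exact Finset.sum_congr rfl fun a _ => by rw [MvPolynomial.C_mul, mul_smul]
  · exact Submodule.sum_mem _ fun a _ => Submodule.smul_mem _ _ (hBd a i j)
  · show ∑ a, (MvPolynomial.C (u a) : S n) • (B a j - B a i) +
      ∑ a, (MvPolynomial.C (u a) : S n) • (B a k - B a j) =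
      ∑ a, (MvPolynomial.C (u a) : S n) • (B a k - B a i)
    rw [← Finset.sum_add_distrib]
    refine Finset.sum_congr rfl fun a _ => ?_
    rw [← smul_add]
    congr 1
    abel
  · exact HmM.sum _ fun a => C_smul_hm (u a) (hgrM.sub _ _ _ (hBh a j) (hBh a i))
  · obtain ⟨D, hD, hDM⟩ := (Ext.comb h u).glue hG
      (C := fun i => ∑ a, (MvPolynomial.C (u a) : S n) • B a i) (fun i v hv => by
        have e1 : θv (fun q => ∑ a, algebraMap (S n) K (MvPolynomial.C (u a)) * θ a q) v +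
            (∑ a, (MvPolynomial.C (u a) : S n) • B a i).mulVec v =
            ∑ a, (MvPolynomial.C (u a) : S n) • (θv (θ a) v + (B a i).mulVec v) := by
          simp only [smul_add, Finset.sum_add_distrib, ← smul_mulVec]
          rw [Matrix.sum_mulVec]
          congr 1
          funext s
          rw [Finset.sum_apply]
          exact Finset.sum_congr rfl fun a _ => (Algebra.smul_def _ _).symm
        rw [e1]
        exact Submodule.sum_mem _ fun a _ => Submodule.smul_mem _ _ (hBl a i v hv))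
      (hu.congr fun i j => by
        rw [← Finset.sum_sub_distrib]
        exact Finset.sum_congr rfl fun a _ => smul_sub _ _ _)
    exact ⟨_, D, Ext.comb h u, hD, hDM⟩

theorem Dv_add_left (ω : K) (a b c : Fin 2 → K) : Dv ω (a + b) c = Dv ω a c + Dv ω b c := by
  unfold Dv; simp only [Pi.add_apply]; ring

/-- the chart computation: the value of the local lift at the section, if the derivation preserves
the ideal of the zeros near the points of the open set -/
theorem value_mem {E : Bundle2 n} (F : Frm E) {p e r : ℤ} {G₀ : Vec E} {ω : K}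
    (h : Sx (F.MM K) ω (F.ρ K G₀) p e) (hc : Cod2 E G₀) (hGM : G₀ ∈ Mp E)
    {N : S n → S n} {θ : K → K} (hE : Ext r N θ) {B : M2 K} {i : Fin (n + 1)}
    (hB : ∀ v ∈ F.MM K, θv θ v + B.mulVec v ∈ locI {i} (F.MM K))
    (hN : ∀ f ∈ iX G₀, ∃ M : ℕ, X i ^ M * N f ∈ iX G₀) :
    Dv ω (F.ρ K G₀) (θv θ (F.ρ K G₀) + B.mulVec (F.ρ K G₀)) ∈ locI {i} (iK (iX G₀ ^ 2) K) := by
  refine loc_of_open (fun x hxi => ?_)
  have hx : x ≠ 0 := by
    rintro rfl
    exact hxi rfl
  obtain ⟨a, a', G, G', k, l, hG, hG', hw, -⟩ := hc x hx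
  have hGm := mem_Mp_of_section hG
  have hGm' := mem_Mp_of_section hG'
  let σ := F.ρ K G₀
  let v := F.ρ K G
  let v' := F.ρ K G'
  let W := wedge G G' k l
  let f := wedge G₀ G' k l
  let f' := wedge G G₀ k l
  have hσ : W • σ = f • v + f' • v' := by
    show wedge G G' k l • F.ρ K G₀ = _
    rw [F.chart_ρ hGm hGm' k l hGM, F.mat_pv, F.ρ_add, F.ρ_smul, F.ρ_smul]
    rfl
  have hv : v ∈ F.MM K := ⟨G, hGm, rfl⟩
  have hv' : v' ∈ F.MM K := ⟨G', hGm', rfl⟩
  let D : (Fin 2 → K) → (Fin 2 → K) := fun w => θv θ w + B.mulVec w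
  have hDadd : ∀ w w', D (w + w') = D w + D w' := by
    intro w w'
    show θv θ (w + w') + B.mulVec (w + w') = θv θ w + B.mulVec w + (θv θ w' + B.mulVec w')
    rw [hE.vadd, mulVec_add]; abel
  have hDsmul : ∀ (s : S n) w, D (s • w) = N s • w + s • D w := by
    intro s w
    show θv θ (s • w) + B.mulVec (s • w) = N s • w + s • (θv θ w + B.mulVec w)
    rw [hE.smul, mulVec_smul, smul_add]; abel
  obtain ⟨N1, hN1⟩ := hB v hv
  obtain ⟨N2, hN2⟩ := hB v' hv'
  have hm1 : xp {i} ^ (N1 + N2) • D v ∈ F.MM K := locI_up hN1 (Nat.le_add_right _ _)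
  have hm2 : xp {i} ^ (N1 + N2) • D v' ∈ F.MM K := locI_up hN2 (Nat.le_add_left _ _)
  obtain ⟨d0, h0⟩ := mem_O.1 (h.int _ hv _ hv')
  obtain ⟨d1, h1⟩ := mem_O.1 (h.int _ hv _ hm1)
  obtain ⟨d2, h2⟩ := mem_O.1 (h.int _ hv _ hm2)
  obtain ⟨d3, h3⟩ := mem_O.1 (h.int _ hv' _ hm1)
  obtain ⟨d4, h4⟩ := mem_O.1 (h.int _ hv' _ hm2)
  have hf : f ∈ iX G₀ := wedge_mem_iX _ _ _ _
  have hf' : f' ∈ iX G₀ := wedge_mem_iX' _ _ _ _
  obtain ⟨M1, hM1⟩ := hN f hf
  obtain ⟨M2, hM2⟩ := hN f' hf'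
  let t := Dv ω σ (D σ)
  -- the two computations
  have eA : Dv ω (W • σ) (D (W • σ)) = (W * W) • t := by
    rw [hDsmul, Dv_add, Dv_smul, Dv_smul, Dv_smul', Dv_smul', Dv_self, smul_zero, smul_zero,
      zero_add, mul_smul]
  have eB : Dv ω (W • σ) (D (W • σ)) =
      (f * N f' - f' * N f) • Dv ω v v' + (f * f) • Dv ω v (D v) + (f * f') • Dv ω v (D v') +
        (f' * f) • Dv ω v' (D v) + (f' * f') • Dv ω v' (D v') := by
    rw [hσ, hDadd, hDsmul, hDsmul]
    unfold Dv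
    simp only [Pi.add_apply, Pi.smul_apply]
    simp only [Algebra.smul_def, map_mul, map_sub]
    ring
  rw [Dv_smul, Algebra.smul_def] at h1 h2 h3 h4
  have eC : (X i ^ (M1 + M2) * xp {i} ^ (N1 + N2) * (W * W)) • t = algebraMap (S n) K
      (X i ^ (M1 + M2) * xp {i} ^ (N1 + N2) * d0 * (f * N f' - f' * N f) +
        X i ^ (M1 + M2) * (d1 * (f * f) + d2 * (f * f') + d3 * (f' * f) + d4 * (f' * f'))) := by
    rw [mul_smul, ← eA, eB]
    simp only [Algebra.smul_def, map_add, map_mul, map_sub, smul_add]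
    rw [h1, h2, h3, h4, h0]
    ring
  refine ⟨X i ^ (M1 + M2) * xp {i} ^ (N1 + N2) * (W * W), ?_, ?_⟩
  · rw [xp_single]
    simp only [map_mul, map_pow, eval_X]
    exact mul_ne_zero (mul_ne_zero (pow_ne_zero _ hxi) (pow_ne_zero _ hxi)) (mul_ne_zero hw hw)
  · show (X i ^ (M1 + M2) * xp {i} ^ (N1 + N2) * (W * W)) • t ∈ iK (iX G₀ ^ 2) K
    rw [eC, am_mem_iK, sq]
    have e1 : X i ^ (M1 + M2) * xp {i} ^ (N1 + N2) * d0 * (f * N f' - f' * N f) =
        X i ^ M1 * xp {i} ^ (N1 + N2) * d0 * (f * (X i ^ M2 * N f')) -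
        X i ^ M2 * xp {i} ^ (N1 + N2) * d0 * (f' * (X i ^ M1 * N f)) := by
      rw [pow_add]; ring
    rw [e1]
    refine add_mem (sub_mem (Ideal.mul_mem_left _ _ (Ideal.mul_mem_mul hf hM2))
      (Ideal.mul_mem_left _ _ (Ideal.mul_mem_mul hf' hM1))) (Ideal.mul_mem_left _ _ ?_)
    exact add_mem (add_mem (add_mem (Ideal.mul_mem_left _ _ (Ideal.mul_mem_mul hf hf))
      (Ideal.mul_mem_left _ _ (Ideal.mul_mem_mul hf hf')))
      (Ideal.mul_mem_left _ _ (Ideal.mul_mem_mul hf' hf)))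
      (Ideal.mul_mem_left _ _ (Ideal.mul_mem_mul hf' hf'))

section step

variable {M : Submodule (S n) (Fin 2 → K)} {ω : K} {σ : Fin 2 → K} {p e : ℤ} {k : ℤ} {U : Type}
  [AddCommGroup U] [Module ℂ U] [FiniteDimensional ℂ U]

/-- if the obstructions are local values, then the class comes from the bundle -/
theorem step1' (h : Sx M ω σ p e) {Y : U → Fin (n + 1) → Fin (n + 1) → M2 K}
    (hY : Fam M k Y) {u : U} {t : Fin (n + 1) → K}
    (ht : ∀ i j, Dv ω σ ((Y u i j).mulVec σ) = t j - t i)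
    (hth : ∀ i, Hm n (k + (2 * p + e)) (t i)) (htJ : ∀ i, t i ∈ locI {i} (J2s M ω σ)) :
    u ∈ W1s ω σ p e hY := by
  have hV : ∀ i, ∃ V ∈ locI {i} (A0 M), HmM n k V ∧ Dv ω σ (V.mulVec σ) = t i := by
    intro i
    obtain ⟨N, V0, hV0, e0⟩ := htJ i
    let V1 : M2 K := (algebraMap (S n) K (xp {i} ^ N))⁻¹ • V0
    have hV1 : V1 ∈ locI {i} (A0 M) := mem_locI_of_smul hV0 N
    have e1 : L2 ω σ V1 = t i := by
      show Dv ω σ (((algebraMap (S n) K (xp {i} ^ N))⁻¹ • V0).mulVec σ) = _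
      rw [smul_mulVec, Dv_ksmul, e0, smul_eq_am (K := K), smul_eq_mul, inv_mul_cancel_left₀]
      exact am_ne (pow_ne_zero _ (xp_ne_zero _))
    obtain ⟨V, hV, hVh, e2⟩ := (h.geo.grA.loc hgrM {i}).sel hgrM hgrK (L := L2 ω σ)
      (d := 2 * p + e) (fun m v hv => h.hm_L2 hv) hV1 (k := k) (by
        rw [e1]; exact hth i)
    exact ⟨V, hV, hVh, by rw [← e1]; exact e2⟩
  choose V hV hVh hVt using hV
  have hY' : ∀ i j, Y u i j - (V j - V i) ∈ locI {i, j} (A0 M) := fun i j =>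
    Submodule.sub_mem _ ((hY.coc u).1 i j) (Submodule.sub_mem _
      (locI_mono (by simp) _ (hV j)) (locI_mono (by simp) _ (hV i)))
  have hX : ∀ i j, ∃ w ∈ locI {i, j} M, HmV n (k - (p + e)) w ∧
      Yw ω σ w = Y u i j - (V j - V i) := by
    intro i j
    obtain ⟨X0, hX0, e0⟩ := h.K2 (by simp) (hY' i j) (by
      rw [sub_mulVec, sub_mulVec, Dv_sub, Dv_sub, hVt, hVt, ht]; ring)
    obtain ⟨X, hX, hXh, e1⟩ := (h.geo.grM.loc hgrV {i, j}).sel hgrV hgrM (L := L3 ω σ)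
      (d := p + e) (fun m v hv => h.hm_Yw hv) hX0 (k := k - (p + e)) (by
        show HmM n (k - (p + e) + (p + e)) (Yw ω σ X0)
        rw [e0, sub_add_cancel]
        exact hgrM.sub _ _ _ (hY.hm u i j) (hgrM.sub _ _ _ (hVh j) (hVh i)))
    exact ⟨X, hX, hXh, by rw [← e0]; exact e1⟩
  choose w hw hwh hwY using hX
  refine ⟨w, ⟨hw, fun i j m => ?_⟩, hwh, V, hV, fun i j => ?_⟩
  · have e1 : Yw ω σ (w i j + w j m - w i m) = 0 := by
      rw [Yw_sub, Yw_add, hwY, hwY, hwY, ← (hY.coc u).2 i j m]; abel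
    exact sub_eq_zero.1 (Yw_inj h.ωne (two_ne n K) h.ne e1)
  · show Y u i j - Yw ω σ (w i j) = V j - V i
    rw [hwY]
    abel

theorem W2_le_W1 {Y : U → Fin (n + 1) → Fin (n + 1) → M2 K} (hY : Fam M k Y) :
    W2s hY ≤ W1s ω σ p e hY := by
  intro u hu
  refine ⟨fun _ _ => 0, ⟨fun i j => Submodule.zero_mem _, fun i j m => by simp⟩,
    fun i j => hgrV.zero _, Cob.congr hu fun i j => ?_⟩
  show Y u i j = Y u i j - Yw ω σ 0
  rw [Yw_zero, sub_zero]

end step

end Pool.Agent.K6.H27.ZS
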